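import Mathlib

set_option autoImplicit false

namespace Pool.Agent.H23.Ricci

open Matrix

/-- The Ricci matrix of a finite simple graph, indexed by its edges: the diagonal entry at
`e = {x, y}` is `-(1/d_x + 1/d_y)`, the entry at two distinct edges is the sum of `1/d_x` over
their common endpoints `x` (there is at most one). -/
noncomputable def ricciMatrix {V : Type} [Fintype V] [DecidableEq V] (G : SimpleGraph V)
    [DecidableRel G.Adj] : Matrix G.edgeSet G.edgeSet ℝ := fun e e' =>
  if e = e' then - ∑ x : V with x ∈ (e : Sym2 V), 1 / (G.degree x : ℝ)
  else ∑ x : V with x ∈ (e : Sym2 V) ∧ x ∈ (e' : Sym2 V), 1 / (G.degree x : ℝ)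

/-- The largest eigenvalue of a real symmetric matrix: the supremum of its real spectrum. -/
noncomputable def lambdaMax {n : Type} [Fintype n] [DecidableEq n] (M : Matrix n n ℝ) : ℝ :=
  sSup (spectrum ℝ M)

/-- The graph obtained from `G` by attaching a leaf (the new vertex `none`) at the vertex `v`. -/
def attachLeaf {V : Type} (G : SimpleGraph V) (v : V) : SimpleGraph (Option V) where
  Adj x y := match x, y with
    | some a, some b => G.Adj a b
    | some a, none => a = v
    | none, some b => b = v
    | none, none => False
  symm := ⟨by
    intro x y h
    cases x <;> cases y <;> simp_all [SimpleGraph.adj_comm]⟩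
  loopless := ⟨by
    intro x h
    cases x <;> simp_all⟩

instance decAttachLeaf {V : Type} [DecidableEq V] (G : SimpleGraph V) [DecidableRel G.Adj] (v : V) :
    DecidableRel (attachLeaf G v).Adj := fun x y => match x, y with
    | some a, some b => inferInstanceAs (Decidable (G.Adj a b))
    | some a, none => inferInstanceAs (Decidable (a = v))
    | none, some b => inferInstanceAs (Decidable (b = v))
    | none, none => inferInstanceAs (Decidable False)

end Pool.Agent.H23.Ricci
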