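import Mathlib
import Pool.Agent.H23.RicciDefs

set_option autoImplicit false

namespace Pool.Agent.H23.Ricci

open Matrix

section Spectral

variable {n : Type} [Fintype n] [DecidableEq n]

lemma le_of_super (M : Matrix n n ℝ) (hoff : ∀ i j, i ≠ j → 0 ≤ M i j) (g : n → ℝ)
    (hg : ∀ i, 0 < g i) (μ : ℝ) (h : ∀ i, (M *ᵥ g) i ≤ μ * g i) (ν : ℝ)
    (hν : ν ∈ spectrum ℝ M) : ν ≤ μ := by
  rw [← Matrix.spectrum_toLin', ← Module.End.hasEigenvalue_iff_mem_spectrum] at hν
  obtain ⟨x, hx⟩ := hν.exists_hasEigenvector
  have hx0 : x ≠ 0 := hx.2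
  have hxe : M *ᵥ x = ν • x := by
    have := hx.apply_eq_smul
    simpa using this
  obtain ⟨k, hk⟩ : ∃ k, x k ≠ 0 := by
    by_contra hcon
    exact hx0 (funext fun k => by simpa using not_exists.mp hcon k)
  obtain ⟨i, -, hi⟩ := Finset.exists_max_image (Finset.univ : Finset n)
    (fun j => |x j| / g j) ⟨k, Finset.mem_univ _⟩
  set m := |x i| / g i with hm
  have hmpos : 0 < m := lt_of_lt_of_le (div_pos (abs_pos.mpr hk) (hg k)) (hi k (Finset.mem_univ _))
  have hxi : |x i| = m * g i := by rw [hm]; field_simp [(hg i).ne']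
  have hle : ∀ j, |x j| ≤ m * g j := by
    intro j
    have := hi j (Finset.mem_univ _)
    rwa [div_le_iff₀ (hg j)] at this
  obtain ⟨s, hs, hsx⟩ : ∃ s : ℝ, |s| = 1 ∧ s * x i = |x i| := by
    rcases le_total 0 (x i) with h0 | h0
    · exact ⟨1, by simp, by rw [abs_of_nonneg h0, one_mul]⟩
    · exact ⟨-1, by simp, by rw [abs_of_nonpos h0]; ring⟩
  have e1 : ν * |x i| = ∑ j, M i j * (s * x j) := by
    have : (M *ᵥ x) i = ν * x i := by rw [hxe]; simp
    rw [← hsx]
    calc ν * (s * x i) = s * (ν * x i) := by ring
      _ = s * (M *ᵥ x) i := by rw [this]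
      _ = _ := by
        simp only [Matrix.mulVec, dotProduct, Finset.mul_sum]
        exact Finset.sum_congr rfl (fun j _ => by ring)
  have e2 : ∑ j, M i j * (s * x j) ≤ ∑ j, M i j * (m * g j) := by
    apply Finset.sum_le_sum
    intro j _
    by_cases hij : i = j
    · subst hij; rw [hsx, hxi]
    · apply mul_le_mul_of_nonneg_left _ (hoff i j hij)
      calc s * x j ≤ |s * x j| := le_abs_self _
        _ = |x j| := by rw [abs_mul, hs, one_mul]
        _ ≤ _ := hle j
  have e3 : ∑ j, M i j * (m * g j) = m * (M *ᵥ g) i := by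
    simp only [Matrix.mulVec, dotProduct, Finset.mul_sum]
    exact Finset.sum_congr rfl (fun j _ => by ring)
  have e4 : ν * |x i| ≤ μ * |x i| := by
    rw [e1]
    refine e2.trans ?_
    rw [e3, hxi]
    calc m * (M *ᵥ g) i ≤ m * (μ * g i) := mul_le_mul_of_nonneg_left (h i) hmpos.le
      _ = μ * (m * g i) := by ring
  have hxpos : 0 < |x i| := by rw [hxi]; exact mul_pos hmpos (hg i)
  exact le_of_mul_le_mul_right e4 hxpos

lemma quad_le (M : Matrix n n ℝ) (hM : M.IsHermitian) (c : ℝ) (h : ∀ ν ∈ spectrum ℝ M, ν ≤ c)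
    (x : n → ℝ) : x ⬝ᵥ (M *ᵥ x) ≤ c * (x ⬝ᵥ x) := by
  have hB : (algebraMap ℝ (Matrix n n ℝ) c - M).IsHermitian := by
    apply Matrix.IsHermitian.sub _ hM
    rw [Matrix.algebraMap_eq_diagonal]
    exact Matrix.isHermitian_diagonal _
  have hpsd : (algebraMap ℝ (Matrix n n ℝ) c - M).PosSemidef := by
    rw [hB.posSemidef_iff_eigenvalues_nonneg]
    intro i
    have hi : hB.eigenvalues i ∈ spectrum ℝ (algebraMap ℝ (Matrix n n ℝ) c - M) := by
      rw [hB.spectrum_real_eq_range_eigenvalues]
      exact ⟨i, rfl⟩
    rw [← spectrum.singleton_sub_eq] at hi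
    obtain ⟨a, ha, b, hb, hab⟩ := Set.mem_sub.mp hi
    rw [Set.mem_singleton_iff] at ha
    subst ha
    have := h b hb
    show (0:ℝ) ≤ hB.eigenvalues i
    linarith
  have := hpsd.dotProduct_mulVec_nonneg x
  simp only [star_trivial] at this
  rw [Matrix.sub_mulVec, dotProduct_sub, Algebra.algebraMap_eq_smul_one, Matrix.smul_mulVec,
    Matrix.one_mulVec, dotProduct_smul, smul_eq_mul] at this
  linarith

lemma le_lambdaMax_of_sub (M : Matrix n n ℝ) (hM : M.IsHermitian) [Nonempty n] (g : n → ℝ)
    (hg : ∀ i, 0 < g i) (μ : ℝ) (h : ∀ i, μ * g i ≤ (M *ᵥ g) i) : μ ≤ lambdaMax M := by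
  have hfin : (spectrum ℝ M).Finite := Matrix.finite_real_spectrum
  have h1 := quad_le M hM (lambdaMax M) (fun ν hν => le_csSup hfin.bddAbove hν) g
  have h2 : μ * (g ⬝ᵥ g) ≤ g ⬝ᵥ (M *ᵥ g) := by
    simp only [dotProduct, Finset.mul_sum]
    apply Finset.sum_le_sum
    intro i _
    calc μ * (g i * g i) = g i * (μ * g i) := by ring
      _ ≤ _ := mul_le_mul_of_nonneg_left (h i) (hg i).le
  have h3 : 0 < g ⬝ᵥ g := by
    simp only [dotProduct]
    exact Finset.sum_pos (fun i _ => mul_pos (hg i) (hg i)) Finset.univ_nonempty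
  exact le_of_mul_le_mul_right (h2.trans h1) h3

end Spectral

section Ricci

variable {V : Type} [Fintype V] [DecidableEq V] (G : SimpleGraph V) [DecidableRel G.Adj]

lemma ricciMatrix_isHermitian : (ricciMatrix G).IsHermitian := by
  ext e e'
  simp only [Matrix.conjTranspose_apply, star_trivial, ricciMatrix]
  by_cases h : e = e'
  · subst h; simp
  · rw [if_neg h, if_neg (Ne.symm h)]
    apply Finset.sum_congr _ (fun _ _ => rfl)
    ext x; simp [and_comm]

lemma ricciMatrix_off (e e' : G.edgeSet) (h : e ≠ e') : 0 ≤ ricciMatrix G e e' := by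
  simp only [ricciMatrix, if_neg h]
  exact Finset.sum_nonneg (fun x _ => by positivity)

lemma sum_incident (f : Sym2 V → ℝ) (x : V) :
    ∑ e' : G.edgeSet, (if x ∈ (e' : Sym2 V) then f e' else 0)
      = ∑ y : V, if G.Adj x y then f s(x, y) else 0 := by
  rw [← Finset.sum_filter, ← Finset.sum_filter]
  symm
  apply Finset.sum_bij (fun y hy => (⟨s(x, y), by simpa using hy⟩ : G.edgeSet))
  · intro y hy
    simp
  · intro y hy z hz h
    rw [Subtype.mk.injEq, Sym2.eq_iff] at h
    rcases h with ⟨-, h⟩ | ⟨h1, h2⟩
    · exact h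
    · rw [h2, ← h1]
  · intro e he
    obtain ⟨e, hE⟩ := e
    simp only [Finset.mem_filter, Finset.mem_univ, true_and] at he
    obtain ⟨y, rfl⟩ := he
    exact ⟨y, by simpa using hE, rfl⟩
  · intro y hy
    rfl

lemma ricci_mulVec (f : Sym2 V → ℝ) (e : G.edgeSet) :
    (ricciMatrix G *ᵥ (fun e' => f e')) e
      = ∑ x : V with x ∈ (e : Sym2 V), (1 / (G.degree x : ℝ)) *
          ((∑ y : V, if G.Adj x y then f s(x, y) else 0) - 2 * f e) := by
  have key : ∀ e' : G.edgeSet, ricciMatrix G e e' =
      (∑ x : V with x ∈ (e : Sym2 V), (1 / (G.degree x : ℝ)) * (if x ∈ (e' : Sym2 V) then 1 else 0))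
      - (if e' = e then ∑ x : V with x ∈ (e : Sym2 V), 2 * (1 / (G.degree x : ℝ)) else 0) := by
    intro e'
    by_cases h : e = e'
    · subst h
      simp only [ricciMatrix, if_true]
      rw [← Finset.sum_sub_distrib, ← Finset.sum_neg_distrib]
      apply Finset.sum_congr rfl
      intro x hx
      simp only [Finset.mem_filter, Finset.mem_univ, true_and] at hx
      rw [if_pos hx]; ring
    · rw [if_neg (Ne.symm h), sub_zero]
      simp only [ricciMatrix, if_neg h]
      rw [Finset.sum_filter, Finset.sum_filter]
      apply Finset.sum_congr rfl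
      intro x _
      by_cases h1 : x ∈ (e : Sym2 V) <;> by_cases h2 : x ∈ (e' : Sym2 V) <;> simp [h1, h2]
  simp only [Matrix.mulVec, dotProduct]
  simp_rw [key, sub_mul, Finset.sum_sub_distrib, Finset.sum_mul]
  rw [Finset.sum_comm]
  simp only [ite_mul, zero_mul, Finset.sum_ite_eq', Finset.mem_univ, if_true]
  rw [Finset.sum_mul, ← Finset.sum_sub_distrib]
  apply Finset.sum_congr rfl
  intro x _
  rw [← sum_incident G f x, mul_sub, Finset.mul_sum]
  congr 1
  · apply Finset.sum_congr rfl
    intro e' _
    by_cases h2 : x ∈ (e' : Sym2 V) <;> simp [h2]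
  · ring

lemma ricci_mulVec' (f : Sym2 V → ℝ) (a b : V) (hab : G.Adj a b) :
    (ricciMatrix G *ᵥ (fun e' => f e')) ⟨s(a, b), hab⟩
      = (1 / (G.degree a : ℝ)) * ((∑ y : V, if G.Adj a y then f s(a, y) else 0) - 2 * f s(a, b))
      + (1 / (G.degree b : ℝ)) * ((∑ y : V, if G.Adj b y then f s(b, y) else 0) - 2 * f s(a, b)) := by
  rw [ricci_mulVec]
  have : (Finset.univ.filter (fun x : V => x ∈ s(a, b))) = {a, b} := by
    ext x; simp
  simp only []
  rw [this, Finset.sum_pair hab.ne]

omit [DecidableEq V] in
lemma degree_eq_sum (x : V) : (G.degree x : ℝ) = ∑ y : V, if G.Adj x y then (1:ℝ) else 0 := by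
  rw [← SimpleGraph.card_neighborFinset_eq_degree, SimpleGraph.neighborFinset_eq_filter]
  simp

end Ricci

/-- vertices of the tree, by level -/
abbrev Vt : Type := Unit ⊕ (Fin 3 ⊕ ((Fin 3 × Fin 19) ⊕ ((Fin 3 × Fin 19 × Fin 19) ⊕
  (Fin 3 × Fin 19 × Fin 19 × Fin 19))))

instance : DecidableEq Vt := inferInstance

instance : DecidableEq (Sym2 Vt) := inferInstance

/-- `par x y`: the vertex `x` is the parent of the vertex `y` -/
def par : Vt → Vt → Bool
  | .inl _, .inr (.inl _) => true
  | .inr (.inl i), .inr (.inr (.inl (i', _))) => i = i'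
  | .inr (.inr (.inl (i, j))), .inr (.inr (.inr (.inl (i', j', _)))) => i = i' ∧ j = j'
  | .inr (.inr (.inr (.inl (i, j, k)))), .inr (.inr (.inr (.inr (i', j', k', _)))) =>
      i = i' ∧ j = j' ∧ k = k'
  | _, _ => false

/-- The tree of depth 4: the root has 3 children, every vertex at level 1, 2, 3 has 19 children. -/
def tree : SimpleGraph Vt where
  Adj x y := par x y = true ∨ par y x = true
  symm := ⟨fun x y h => h.symm⟩
  loopless := ⟨by
    rintro (_ | _ | _ | _ | _) h <;> simp [par] at h⟩

instance : DecidableRel tree.Adj := fun x y =>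
  inferInstanceAs (Decidable (par x y = true ∨ par y x = true))

/-- the root -/
abbrev root : Vt := .inl ()

lemma sum_root (F : Vt → ℝ) :
    (∑ y : Vt, if tree.Adj root y then F y else 0) = ∑ i : Fin 3, F (.inr (.inl i)) := by
  simp [Fintype.sum_sum_type, tree, par]

lemma sum_one (F : Vt → ℝ) (i : Fin 3) :
    (∑ y : Vt, if tree.Adj (.inr (.inl i)) y then F y else 0)
      = F root + ∑ j : Fin 19, F (.inr (.inr (.inl (i, j)))) := by
  simp only [Fintype.sum_sum_type, Fintype.sum_prod_type, tree, par]
  rw [Finset.sum_eq_single (f := fun x : Fin 3 => ∑ y : Fin 19, _) i]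
  · simp
  · intro b _ hb
    simp [Ne.symm hb]
  · simp

lemma sum_two (F : Vt → ℝ) (i : Fin 3) (j : Fin 19) :
    (∑ y : Vt, if tree.Adj (.inr (.inr (.inl (i, j)))) y then F y else 0)
      = F (.inr (.inl i)) + ∑ k : Fin 19, F (.inr (.inr (.inr (.inl (i, j, k))))) := by
  simp only [Fintype.sum_sum_type, Fintype.sum_prod_type, tree, par]
  rw [Finset.sum_eq_single (f := fun x : Fin 3 => ∑ y : Fin 19, ∑ z : Fin 19, _) i]
  · rw [Finset.sum_eq_single (f := fun y : Fin 19 => ∑ z : Fin 19, _) j]
    · simp
    · intro b _ hb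
      simp [Ne.symm hb]
    · simp
  · intro b _ hb
    simp [Ne.symm hb]
  · simp

lemma sum_three (F : Vt → ℝ) (i : Fin 3) (j k : Fin 19) :
    (∑ y : Vt, if tree.Adj (.inr (.inr (.inr (.inl (i, j, k))))) y then F y else 0)
      = F (.inr (.inr (.inl (i, j)))) +
        ∑ l : Fin 19, F (.inr (.inr (.inr (.inr (i, j, k, l))))) := by
  simp only [Fintype.sum_sum_type, Fintype.sum_prod_type, tree, par]
  rw [Finset.sum_eq_single (f := fun x : Fin 3 => ∑ y : Fin 19, ∑ z : Fin 19, ∑ w : Fin 19, _) i]
  · rw [Finset.sum_eq_single (f := fun y : Fin 19 => ∑ z : Fin 19, ∑ w : Fin 19, _) j]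
    · rw [Finset.sum_eq_single (f := fun z : Fin 19 => ∑ w : Fin 19, _) k]
      · rw [Finset.sum_eq_single (f := fun x : Fin 3 => ∑ y : Fin 19, _) i]
        · rw [Finset.sum_eq_single (f := fun y : Fin 19 => _) j]
          · simp
          · intro b _ hb
            simp [hb]
          · simp
        · intro b _ hb
          simp [hb]
        · simp
      · intro b _ hb
        simp [Ne.symm hb]
      · simp
    · intro b _ hb
      simp [Ne.symm hb]
    · simp
  · intro b _ hb
    simp [Ne.symm hb]
  · simp

lemma sum_four (F : Vt → ℝ) (i : Fin 3) (j k l : Fin 19) :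
    (∑ y : Vt, if tree.Adj (.inr (.inr (.inr (.inr (i, j, k, l))))) y then F y else 0)
      = F (.inr (.inr (.inr (.inl (i, j, k))))) := by
  rw [Finset.sum_eq_single (.inr (.inr (.inr (.inl (i, j, k)))))]
  · simp [tree, par]
  · rintro (_ | i' | ⟨i', j'⟩ | ⟨i', j', k'⟩ | ⟨i', j', k', l'⟩) _ hb
    all_goals simp_all [tree, par]
  · simp

lemma degree_root : (tree.degree root : ℝ) = 3 := by
  rw [degree_eq_sum, sum_root (fun _ => 1)]; simp

lemma degree_one (i : Fin 3) : (tree.degree (.inr (.inl i)) : ℝ) = 20 := by
  rw [degree_eq_sum, sum_one (fun _ => 1)]; norm_num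

lemma degree_two (i : Fin 3) (j : Fin 19) : (tree.degree (.inr (.inr (.inl (i, j)))) : ℝ) = 20 := by
  rw [degree_eq_sum, sum_two (fun _ => 1)]; norm_num

lemma degree_three (i : Fin 3) (j k : Fin 19) :
    (tree.degree (.inr (.inr (.inr (.inl (i, j, k))))) : ℝ) = 20 := by
  rw [degree_eq_sum, sum_three (fun _ => 1)]; norm_num

lemma degree_four (i : Fin 3) (j k l : Fin 19) :
    (tree.degree (.inr (.inr (.inr (.inr (i, j, k, l))))) : ℝ) = 1 := by
  rw [degree_eq_sum, sum_four (fun _ => 1)]

lemma reach_one (i : Fin 3) : tree.Reachable root (.inr (.inl i)) :=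
  SimpleGraph.Adj.reachable (by simp [tree, par])

lemma reach_two (i : Fin 3) (j : Fin 19) : tree.Reachable root (.inr (.inr (.inl (i, j)))) :=
  (reach_one i).trans (SimpleGraph.Adj.reachable (by simp [tree, par]))

lemma reach_three (i : Fin 3) (j k : Fin 19) :
    tree.Reachable root (.inr (.inr (.inr (.inl (i, j, k))))) :=
  (reach_two i j).trans (SimpleGraph.Adj.reachable (by simp [tree, par]))

lemma reach_four (i : Fin 3) (j k l : Fin 19) :
    tree.Reachable root (.inr (.inr (.inr (.inr (i, j, k, l))))) :=
  (reach_three i j k).trans (SimpleGraph.Adj.reachable (by simp [tree, par]))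

lemma reach (x : Vt) : tree.Reachable root x := by
  rcases x with u | i | ⟨i, j⟩ | ⟨i, j, k⟩ | ⟨i, j, k, l⟩
  · exact SimpleGraph.Reachable.refl _
  · exact reach_one i
  · exact reach_two i j
  · exact reach_three i j k
  · exact reach_four i j k l

lemma tree_isTree : tree.IsTree := by
  rw [SimpleGraph.isTree_iff_connected_and_card]
  constructor
  · have : Nonempty Vt := ⟨root⟩
    exact ⟨fun x y => (reach x).symm.trans (reach y)⟩
  · have h1 : (∑ x : Vt, (tree.degree x : ℝ)) = 43440 := by
      simp only [Fintype.sum_sum_type, Fintype.sum_prod_type, degree_one, degree_two,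
        degree_three, degree_four]
      simp only [Finset.univ_unique, Finset.sum_singleton, PUnit.default_eq_unit, degree_root]
      simp
      norm_num
    have h2 : ∑ x : Vt, tree.degree x = 43440 := by exact_mod_cast h1
    rw [SimpleGraph.sum_degrees_eq_twice_card_edges] at h2
    have h3 : Nat.card tree.edgeSet = 21720 := by
      rw [Nat.card_eq_fintype_card, ← SimpleGraph.edgeFinset_card]
      omega
    rw [h3, Nat.card_eq_fintype_card]
    simp

/-- level of a vertex (the extra leaf has level 5) -/
def lev : Vt → ℕ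
  | .inl _ => 0
  | .inr (.inl _) => 1
  | .inr (.inr (.inl _)) => 2
  | .inr (.inr (.inr (.inl _))) => 3
  | .inr (.inr (.inr (.inr _))) => 4

/-- radial function on unordered pairs -/
def radial {V : Type} (lv : V → ℕ) (val : ℕ → ℝ) : Sym2 V → ℝ :=
  Sym2.lift ⟨fun x y => val (max (lv x) (lv y)), fun x y => by simp only [max_comm]⟩

lemma radial_mk {V : Type} (lv : V → ℕ) (val : ℕ → ℝ) (x y : V) :
    radial lv val s(x, y) = val (max (lv x) (lv y)) := rfl

/-- every edge of the tree joins a vertex to its parent -/
lemma edge_cases (P : tree.edgeSet → Prop)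
    (h1 : ∀ i (h : tree.Adj (.inr (.inl i)) root), P ⟨s(.inr (.inl i), root), h⟩)
    (h2 : ∀ i j (h : tree.Adj (.inr (.inr (.inl (i, j)))) (.inr (.inl i))),
      P ⟨s(.inr (.inr (.inl (i, j))), .inr (.inl i)), h⟩)
    (h3 : ∀ i j k (h : tree.Adj (.inr (.inr (.inr (.inl (i, j, k))))) (.inr (.inr (.inl (i, j))))),
      P ⟨s(.inr (.inr (.inr (.inl (i, j, k)))), .inr (.inr (.inl (i, j)))), h⟩)
    (h4 : ∀ i j k l (h : tree.Adj (.inr (.inr (.inr (.inr (i, j, k, l)))))
        (.inr (.inr (.inr (.inl (i, j, k)))))),
      P ⟨s(.inr (.inr (.inr (.inr (i, j, k, l)))), .inr (.inr (.inr (.inl (i, j, k))))), h⟩)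
    (e : tree.edgeSet) : P e := by
  have main : ∀ x y : Vt, ∀ h : par x y = true, P ⟨s(y, x), Or.inr h⟩ := by
    rintro (_ | i | ⟨i, j⟩ | ⟨i, j, k⟩ | ⟨i, j, k, l⟩)
      (_ | i' | ⟨i', j'⟩ | ⟨i', j', k'⟩ | ⟨i', j', k', l'⟩) h
    all_goals try (simp [par] at h; done)
    · exact h1 _ _
    · have h' : i = i' := by simpa [par] using h
      subst h'
      exact h2 _ _ _
    · have h' : i = i' ∧ j = j' := by simpa [par] using h
      obtain ⟨rfl, rfl⟩ := h'
      exact h3 _ _ _ _
    · have h' : i = i' ∧ j = j' ∧ k = k' := by simpa [par] using h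
      obtain ⟨rfl, rfl, rfl⟩ := h'
      exact h4 _ _ _ _ _
  obtain ⟨e, he⟩ := e
  induction e using Sym2.ind with
  | _ x y =>
    rcases he with h | h
    · have := main x y h
      have hE : (⟨s(x, y), Or.inl h⟩ : tree.edgeSet) = ⟨s(y, x), Or.inr h⟩ :=
        Subtype.ext Sym2.eq_swap
      rw [hE]
      exact this
    · exact main y x h

lemma lower : (1.06794 : ℝ) ≤ lambdaMax (ricciMatrix tree) := by
  have : Nonempty tree.edgeSet := ⟨⟨s(root, .inr (.inl 0)), by simp [tree, par]⟩⟩
  let val : ℕ → ℝ := fun n => if n = 1 then 1081 else if n = 2 then 893 else if n = 3 then 195 else 8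
  apply le_lambdaMax_of_sub _ (ricciMatrix_isHermitian tree)
    (fun e => radial lev val (e : Sym2 Vt))
  · intro e
    obtain ⟨e, he⟩ := e
    induction e using Sym2.ind with
    | _ x y =>
      simp only [radial_mk, val]
      split_ifs <;> norm_num
  · apply edge_cases
    · intro i h
      rw [ricci_mulVec' tree (radial lev val), sum_one (fun y => radial lev val s(_, y)),
        sum_root (fun y => radial lev val s(_, y)), degree_root, degree_one]
      simp [radial_mk, lev, val]
      norm_num
    · intro i j h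
      rw [ricci_mulVec' tree (radial lev val), sum_one (fun y => radial lev val s(_, y)),
        sum_two (fun y => radial lev val s(_, y)), degree_two, degree_one]
      simp [radial_mk, lev, val]
      norm_num
    · intro i j k h
      rw [ricci_mulVec' tree (radial lev val), sum_three (fun y => radial lev val s(_, y)),
        sum_two (fun y => radial lev val s(_, y)), degree_two, degree_three]
      simp [radial_mk, lev, val]
      norm_num
    · intro i j k l h
      rw [ricci_mulVec' tree (radial lev val), sum_three (fun y => radial lev val s(_, y)),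
        sum_four (fun y => radial lev val s(_, y)), degree_four, degree_three]
      simp [radial_mk, lev, val]
      norm_num

section Attach

variable {V : Type} [Fintype V] [DecidableEq V] (G : SimpleGraph V) [DecidableRel G.Adj] (v : V)

lemma sum_attach_some (F : Option V → ℝ) (x : V) :
    (∑ y : Option V, if (attachLeaf G v).Adj (some x) y then F y else 0)
      = (if x = v then F none else 0) + ∑ y : V, if G.Adj x y then F (some y) else 0 := by
  rw [Fintype.sum_option]
  congr 1

lemma sum_attach_none (F : Option V → ℝ) :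
    (∑ y : Option V, if (attachLeaf G v).Adj none y then F y else 0) = F (some v) := by
  rw [Finset.sum_eq_single (some v)]
  · simp [attachLeaf]
  · rintro (_ | y) _ hb
    · simp
    · have : y ≠ v := fun h => hb (by rw [h])
      simp [attachLeaf, this]
  · simp

end Attach

/-- the tree with the additional leaf -/
abbrev tree' : SimpleGraph (Option Vt) := attachLeaf tree root

instance : DecidableEq (Option Vt) := inferInstance

instance : DecidableEq (Sym2 (Option Vt)) := inferInstance

lemma par_cases (Q : Vt → Vt → Prop)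
    (h1 : ∀ i, Q (.inr (.inl i)) root)
    (h2 : ∀ i j, Q (.inr (.inr (.inl (i, j)))) (.inr (.inl i)))
    (h3 : ∀ i j k, Q (.inr (.inr (.inr (.inl (i, j, k))))) (.inr (.inr (.inl (i, j)))))
    (h4 : ∀ i j k l, Q (.inr (.inr (.inr (.inr (i, j, k, l)))))
        (.inr (.inr (.inr (.inl (i, j, k)))))) :
    ∀ x y : Vt, par x y = true → Q y x := by
  rintro (_ | i | ⟨i, j⟩ | ⟨i, j, k⟩ | ⟨i, j, k, l⟩)
    (_ | i' | ⟨i', j'⟩ | ⟨i', j', k'⟩ | ⟨i', j', k', l'⟩) h
  all_goals try (simp [par] at h; done)
  · exact h1 _
  · have h' : i = i' := by simpa [par] using h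
    subst h'
    exact h2 _ _
  · have h' : i = i' ∧ j = j' := by simpa [par] using h
    obtain ⟨rfl, rfl⟩ := h'
    exact h3 _ _ _
  · have h' : i = i' ∧ j = j' ∧ k = k' := by simpa [par] using h
    obtain ⟨rfl, rfl, rfl⟩ := h'
    exact h4 _ _ _ _

lemma edge_cases' (P : tree'.edgeSet → Prop)
    (h0 : ∀ h : tree'.Adj none (some root), P ⟨s(none, some root), h⟩)
    (h1 : ∀ x y, par x y = true → ∀ h : tree'.Adj (some y) (some x), P ⟨s(some y, some x), h⟩)
    (e : tree'.edgeSet) : P e := by
  obtain ⟨e, he⟩ := e
  induction e using Sym2.ind with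
  | _ x y =>
    have hE : (⟨s(x, y), he⟩ : tree'.edgeSet) = ⟨s(y, x), (SimpleGraph.Adj.symm he : tree'.Adj y x)⟩ :=
      Subtype.ext Sym2.eq_swap
    cases x with
    | none =>
      cases y with
      | none => exact absurd he (by simp [attachLeaf])
      | some b =>
        have hb : b = root := he
        subst hb
        exact h0 _
    | some a =>
      cases y with
      | none =>
        have ha : a = root := he
        subst ha
        rw [hE]
        exact h0 _
      | some b =>
        have hab : par a b = true ∨ par b a = true := he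
        rcases hab with h | h
        · rw [hE]
          exact h1 a b h _
        · exact h1 b a h _

/-- level of a vertex of the tree with the extra leaf -/
def lev' : Option Vt → ℕ
  | none => 5
  | some x => lev x

lemma degree'_some (x : Vt) :
    (tree'.degree (some x) : ℝ) = (if x = root then 1 else 0) + (tree.degree x : ℝ) := by
  rw [degree_eq_sum tree' (some x), sum_attach_some tree root (fun _ => 1), degree_eq_sum tree]

lemma degree'_none : (tree'.degree none : ℝ) = 1 := by
  rw [degree_eq_sum tree' none, sum_attach_none tree root (fun _ => 1)]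

lemma upper : lambdaMax (ricciMatrix tree') ≤ (1.06791 : ℝ) := by
  let val : ℕ → ℝ := fun n =>
    if n = 1 then 1885 else if n = 2 then 1561 else if n = 3 then 341 else if n = 4 then 14 else 610
  apply Real.sSup_le _ (by norm_num)
  intro ν hν
  refine le_of_super _ (ricciMatrix_off tree') (fun e => radial lev' val (e : Sym2 (Option Vt)))
    ?_ _ ?_ ν hν
  · intro e
    obtain ⟨e, he⟩ := e
    induction e using Sym2.ind with
    | _ x y =>
      simp only [radial_mk, val]
      split_ifs <;> norm_num
  · apply edge_cases'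
    · intro h
      rw [ricci_mulVec' tree' (radial lev' val),
        sum_attach_none tree root (fun y => radial lev' val s(_, y)),
        sum_attach_some tree root (fun y => radial lev' val s(_, y)), degree'_none, degree'_some,
        sum_root (fun y => radial lev' val s(_, some y)), degree_root]
      simp [radial_mk, lev', lev, val]
      norm_num
    · apply par_cases
      · intro i h
        rw [ricci_mulVec' tree' (radial lev' val),
          sum_attach_some tree root (fun y => radial lev' val s(_, y)),
          sum_attach_some tree root (fun y => radial lev' val s(_, y)), degree'_some, degree'_some,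
          sum_root (fun y => radial lev' val s(_, some y)),
          sum_one (fun y => radial lev' val s(_, some y)), degree_root, degree_one]
        simp [radial_mk, lev', lev, val]
        norm_num
      · intro i j h
        rw [ricci_mulVec' tree' (radial lev' val),
          sum_attach_some tree root (fun y => radial lev' val s(_, y)),
          sum_attach_some tree root (fun y => radial lev' val s(_, y)), degree'_some, degree'_some,
          sum_two (fun y => radial lev' val s(_, some y)),
          sum_one (fun y => radial lev' val s(_, some y)), degree_two, degree_one]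
        simp [radial_mk, lev', lev, val]
        norm_num
      · intro i j k h
        rw [ricci_mulVec' tree' (radial lev' val),
          sum_attach_some tree root (fun y => radial lev' val s(_, y)),
          sum_attach_some tree root (fun y => radial lev' val s(_, y)), degree'_some, degree'_some,
          sum_two (fun y => radial lev' val s(_, some y)),
          sum_three (fun y => radial lev' val s(_, some y)), degree_two, degree_three]
        simp [radial_mk, lev', lev, val]
        norm_num
      · intro i j k l h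
        rw [ricci_mulVec' tree' (radial lev' val),
          sum_attach_some tree root (fun y => radial lev' val s(_, y)),
          sum_attach_some tree root (fun y => radial lev' val s(_, y)), degree'_some, degree'_some,
          sum_four (fun y => radial lev' val s(_, some y)),
          sum_three (fun y => radial lev' val s(_, some y)), degree_four, degree_three]
        simp [radial_mk, lev', lev, val]
        norm_num

end Pool.Agent.H23.Ricci
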